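import Mathlib
import Pool.Agent.H8.CG3

namespace Pool.Agent.Results.MP_f9d380_an.Linear
open Finset

section defs
variable {𝕜 : Type} [RCLike 𝕜] {X : Type} [AddCommGroup X] [Module 𝕜 X]

/-- `N` is a `p`-norm and `(x, xs)` a bounded Schauder basis with basis constant at most `K`. -/
structure Schauder (p K : ℝ) (N : X → ℝ) (x : ℕ → X) (xs : ℕ → X →ₗ[𝕜] 𝕜) : Prop where
  nonneg : ∀ f, 0 ≤ N f
  definite : ∀ f, N f = 0 → f = 0
  homog : ∀ (c : 𝕜) f, N (c • f) = ‖c‖ * N f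
  ptri : ∀ f g, N (f + g) ^ p ≤ N f ^ p + N g ^ p
  biorth : ∀ i j, xs i (x j) = if i = j then 1 else 0
  dense : ∀ f, ∀ δ > 0, ∃ u ∈ Submodule.span 𝕜 (Set.range x), N (f - u) < δ
  bdd : ∃ α : ℝ, ∀ k, N (x k) ≤ α ∧ ∀ f, ‖xs k f‖ ≤ α * N f
  total : ∀ f, (∀ k, xs k f = 0) → f = 0
  proj : ∀ n f, N (∑ j ∈ range n, xs j f • x j) ≤ K * N f

/-- `A` is a greedy set of `f`. -/
def Greedy (xs : ℕ → X →ₗ[𝕜] 𝕜) (f : X) (A : Finset ℕ) : Prop :=
  ∀ n ∈ A, ∀ k ∉ A, ‖xs k f‖ ≤ ‖xs n f‖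

/-- `L` is admissible in the definition of the Chebyshev Lebesgue parameter. -/
def Cheb (N : X → ℝ) (x : ℕ → X) (xs : ℕ → X →ₗ[𝕜] 𝕜) (m : ℕ) (L : ℝ) : Prop :=
  ∀ f (A : Finset ℕ), A.card = m →
    (∀ n ∈ A, ∀ k ∉ A, ‖xs k f‖ < ‖xs n f‖ ∨ (‖xs k f‖ = ‖xs n f‖ ∧ n < k)) →
    ∀ B : Finset ℕ, B.card ≤ m → ∀ y ∈ Submodule.span 𝕜 (x '' B),
      ∃ z ∈ Submodule.span 𝕜 (x '' A), N (f - z) ≤ L * N (f - y)

/-- `C` is admissible in the definition of the quasi-greedy parameter. -/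
def QG (N : X → ℝ) (x : ℕ → X) (xs : ℕ → X →ₗ[𝕜] 𝕜) (m : ℕ) (C : ℝ) : Prop :=
  ∀ f (A : Finset ℕ), A.card ≤ m → Greedy xs f A → N (∑ j ∈ A, xs j f • x j) ≤ C * N f

/-- `C` is admissible in the definition of the squeeze symmetry parameter. -/
def Sq (N : X → ℝ) (x : ℕ → X) (xs : ℕ → X →ₗ[𝕜] 𝕜) (m : ℕ) (C : ℝ) : Prop :=
  ∀ f (A B : Finset ℕ) (ε : ℕ → 𝕜) (hB : B.Nonempty), A.card = B.card → B.card ≤ m →
    Greedy xs f B → (∀ j ∈ A, ‖ε j‖ = 1) →
    B.inf' hB (fun n => ‖xs n f‖) * N (∑ j ∈ A, ε j • x j) ≤ C * N f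
end defs

open Pool.Agent.H8.CG in
theorem result (𝕜 : Type) [RCLike 𝕜] (p : ℝ) (hp : 0 < p) (hp1 : p ≤ 1) :
    (∀ K : ℝ, ∃ C : ℝ, ∀ (X : Type) [AddCommGroup X] [Module 𝕜 X] (N : X → ℝ) (x : ℕ → X)
      (xs : ℕ → X →ₗ[𝕜] 𝕜), Schauder p K N x xs → ∀ (m : ℕ) (L : ℝ), Cheb N x xs m L →
        QG N x xs m (C * L) ∧ Sq N x xs m (C * L)) ∧
    (∀ C : ℝ, ∃ (N : lp (fun _ : ℕ => 𝕜) 1 → ℝ) (x : ℕ → lp (fun _ : ℕ => 𝕜) 1)
      (xs : ℕ → lp (fun _ : ℕ => 𝕜) 1 →ₗ[𝕜] 𝕜) (K δ : ℝ), 0 < δ ∧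
      (∀ f, δ * ‖f‖ ≤ N f ∧ N f ≤ 2 * ‖f‖) ∧ Schauder 1 K N x xs ∧ Schauder p K N x xs ∧
      (∀ m, 1 ≤ m → Cheb N x xs m 2) ∧ ¬ QG N x xs 1 C) := by
  constructor
  · intro K
    set κ : ℝ := 2 ^ (1 / p) with hκ
    have k1 : 1 ≤ κ := Real.one_le_rpow (by norm_num) (by positivity)
    refine ⟨κ * K + 4 * κ ^ 5 * K + 24 * κ ^ 7 * K ^ 2, fun X _ _ N x xs S m L hL => ?_⟩
    have D : Data N x xs κ K L m :=
      { nn := S.nonneg, df := S.definite, sm := S.homog, k1 := k1, bi := S.biorth, dn := S.dense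
        bd := by obtain ⟨α, h⟩ := S.bdd; exact ⟨α, fun k => (h k).2⟩
        sc := S.proj
        ch := fun f A hA hg => hL f A hA (fun n hn k hk => Or.inl (hg n hn k hk))
        tr := by
          intro f g
          have f0 := S.nonneg f
          have g0 := S.nonneg g
          rw [← Real.rpow_le_rpow_iff (S.nonneg _) (by positivity) hp,
            Real.mul_rpow (by positivity) (by positivity), hκ, ← Real.rpow_mul (by norm_num),
            one_div, inv_mul_cancel₀ hp.ne', Real.rpow_one]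
          have a1 := Real.rpow_le_rpow f0 (le_add_of_nonneg_right g0) hp.le
          have a2 := Real.rpow_le_rpow g0 (le_add_of_nonneg_left f0) hp.le
          linarith [S.ptri f g] }
    have K0 : 0 < K := zero_lt_one.trans_le D.K1
    have L0 := D.L0
    constructor
    · intro f A hA hg
      refine (D.gpart f A hA hg).trans ?_
      exact mul_le_mul_of_nonneg_right (mul_le_mul_of_nonneg_right
        (le_add_of_nonneg_right (by positivity)) L0.le) (S.nonneg f)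
    · intro f A B ε hB hAB hm hg hε
      refine (D.lpart f A B hAB hm hg _ ((le_inf'_iff hB _).mpr (fun _ _ => norm_nonneg _))
        (fun n hn => inf'_le _ hn) ε hε).trans ?_
      exact mul_le_mul_of_nonneg_right (mul_le_mul_of_nonneg_right
        (le_add_of_nonneg_left (by positivity)) L0.le) (S.nonneg f)
  · intro C
    set δ : ℝ := 1 / (2 * |C| + 1) with hδ
    have d0 : 0 < δ := by positivity
    have d1 : δ ≤ 1 := by rw [hδ, div_le_one (by positivity)]; linarith [abs_nonneg C]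
    have nn : ∀ f : L1 𝕜, 0 ≤ ND δ f := fun f => le_trans (by positivity) (ND_lo δ f)
    have up : ∀ f : L1 𝕜, ‖f‖ ≤ δ⁻¹ * ND δ f := fun f => by
      rw [le_inv_mul_iff₀ d0]; exact ND_lo δ f
    have S : ∀ q : ℝ, 0 < q → q ≤ 1 → Schauder q (4 * δ⁻¹) (ND δ) (e : ℕ → L1 𝕜) es := fun q q0 q1 =>
      { nonneg := nn
        definite := fun f h => by
          have := up f
          rw [h, mul_zero] at this
          exact norm_le_zero_iff.mp this
        homog := ND_sm δ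
        ptri := fun f g => (Real.rpow_le_rpow (nn _) (ND_tr d0.le f g) q0.le).trans
          (Real.rpow_add_le_add_rpow (nn f) (nn g) q0.le q1)
        biorth := es_e
        dense := fun f η hη => by
          obtain ⟨u, hu, h⟩ := dense f (η / 2) (by positivity)
          exact ⟨u, hu, by linarith [ND_hi d1 (f - u)]⟩
        bdd := ⟨2 + δ⁻¹, fun k => ⟨by
            have := ND_hi d1 (e k : L1 𝕜)
            rw [n_e] at this
            linarith [inv_pos.mpr d0], fun f => by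
            have h1 : ‖es k f‖ ≤ ‖f‖ := lp.norm_apply_le_norm (by simp) f k
            nlinarith [up f, nn f]⟩⟩
        total := fun f h => lp.ext (funext h)
        proj := fun n f => by
          have h1 := ND_hi d1 (PA e es (range n) f)
          have h2 := n_PA (range n) f
          have h3 := up f
          unfold PA at h1 h2
          linarith }
    refine ⟨ND δ, e, es, 4 * δ⁻¹, δ, d0, fun f => ⟨ND_lo δ f, ND_hi d1 f⟩, S 1 one_pos le_rfl,
      S p hp hp1, fun m hm f A hA hg B hB y hy => cheb δ d0 f A (card_pos.mp (by omega))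
        (fun n hn k hk => (hg n hn k hk).elim le_of_lt (fun h => h.1.le)) B (by omega) y hy, fun h => ?_⟩
    have h1 := h (e 0 - e 1) {0} (by simp) (by
      intro n hn k hk
      rw [mem_singleton] at hn hk
      subst hn
      simp only [map_sub, es_e, if_neg hk]
      split_ifs <;> simp_all)
    obtain ⟨b1, b2⟩ := bad (𝕜 := 𝕜) δ
    unfold PA at b2
    rw [b2] at h1
    rw [abs_of_pos d0] at b1
    have h2 : C * ND δ ((e 0 : L1 𝕜) - e 1) ≤ |C| * (δ * 2) :=
      (mul_le_mul_of_nonneg_right (le_abs_self C) (nn _)).trans (by gcongr)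
    have h3 : δ * (2 * |C| + 1) = 1 := by rw [hδ]; field_simp
    nlinarith

end Pool.Agent.Results.MP_f9d380_an.Linear
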